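import Mathlib
import Pool.Agent.LRN.StmtsC
import Pool.Agent.Helper74_LRN.DIR

set_option autoImplicit false

/-! Row RGS of the squad LRN: short independent units give a small regulator. -/

namespace Pool.Agent.LRN.H5

open NumberField NumberField.Units NumberField.Units.dirichletUnitTheorem Pool.Agent.LRG

theorem isMaxRank_of_indep (hINR : LRN.InrStmt) {K : Type} [Field K] [NumberField K]
    (u : Fin (Units.rank K) → (𝓞 K)ˣ) (hI : Indep u) : IsMaxRank u := by
  classical
  rw [IsMaxRank, Fintype.linearIndependent_iff]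
  intro c hc
  have h0 : ∀ w : InfinitePlace K, w ≠ w₀ → ∑ i, c i * Real.log (w ((u i : 𝓞 K) : K)) = 0 := by
    intro w hw
    have h1 := congrFun hc ⟨w, hw⟩
    rw [Finset.sum_apply] at h1
    have h7 : ∀ i, (c i • logEmbedding K (Additive.ofMul (u i))) ⟨w, hw⟩ =
        (InfinitePlace.mult w : ℝ) * (c i * Real.log (w ((u i : 𝓞 K) : K))) := by
      intro i
      rw [Pi.smul_apply, smul_eq_mul]
      change c i * (logEmbedding K (Additive.ofMul (u i)) ⟨w, hw⟩) = _
      rw [logEmbedding_component]
      ring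
    rw [Finset.sum_congr rfl fun i _ => h7 i, ← Finset.mul_sum] at h1
    have h2 : (InfinitePlace.mult w : ℝ) ≠ 0 := InfinitePlace.mult_coe_ne_zero
    exact (mul_eq_zero.1 h1).resolve_left h2
  have hall : ∀ w : InfinitePlace K, ∑ i, c i * Real.log (w ((u i : 𝓞 K) : K)) = 0 := by
    intro w
    by_cases hw : w = w₀
    · have h1 : ∑ w' : InfinitePlace K, (InfinitePlace.mult w' : ℝ) *
          ∑ i, c i * Real.log (w' ((u i : 𝓞 K) : K)) = 0 := by
        have h2 : ∀ w' : InfinitePlace K, (InfinitePlace.mult w' : ℝ) *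
            ∑ i, c i * Real.log (w' ((u i : 𝓞 K) : K)) =
            ∑ i, c i * ((InfinitePlace.mult w' : ℝ) * Real.log (w' ((u i : 𝓞 K) : K))) := by
          intro w'
          rw [Finset.mul_sum]
          exact Finset.sum_congr rfl fun i _ => by ring
        rw [Finset.sum_congr rfl fun w' _ => h2 w', Finset.sum_comm]
        refine Finset.sum_eq_zero fun i _ => ?_
        rw [← Finset.mul_sum, sum_mult_mul_log, mul_zero]
      rw [Finset.sum_eq_single w] at h1
      · have h2 : (InfinitePlace.mult w : ℝ) ≠ 0 := InfinitePlace.mult_coe_ne_zero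
        exact (mul_eq_zero.1 h1).resolve_left h2
      · intro b _ hb
        rw [h0 b (fun h => hb (h.trans hw.symm)), mul_zero]
      · intro h
        exact absurd (Finset.mem_univ w) h
    · exact h0 w hw
  have hfin := hINR K (Units.rank K) u hI c (by
    intro σ
    have h1 := hall (InfinitePlace.mk σ)
    simpa only [InfinitePlace.apply] using h1)
  intro i
  exact congrFun hfin i

/-- Row RGS. -/
theorem rgs (hINR : LRN.InrStmt) : RgsStmt := by
  classical
  intro n
  refine ⟨(n.factorial : ℝ) * ((n : ℝ) + 1) ^ n, by positivity, ?_⟩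
  intro K _ _ X u hn hX hI hB
  have hmax := isMaxRank_of_indep hINR u hI
  have hreg : regOfFamily u ≠ 0 := regOfFamily_ne_zero hmax
  have hle : regulator K ≤ regOfFamily u := by
    have h1 := regOfFamily_div_regulator u
    have hp := regulator_pos K
    have h3 : (1 : ℝ) ≤ regOfFamily u / regulator K := by
      rw [h1]
      have : ((Subgroup.closure (Set.range u) ⊔ (torsion K)).index : ℝ) ≠ 0 := by
        rw [← h1]
        exact div_ne_zero hreg hp.ne'
      exact_mod_cast Nat.one_le_iff_ne_zero.2 (by exact_mod_cast this)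
    rwa [le_div_iff₀ hp, one_mul] at h3
  refine hle.trans ?_
  have hlogX : 0 ≤ Real.log X := Real.log_nonneg hX
  have hmn : ∑ w : InfinitePlace K, (InfinitePlace.mult w : ℝ) = n := by
    rw [← hn]
    exact_mod_cast InfinitePlace.sum_mult_eq (K := K)
  have hup : ∀ (i : Fin (Units.rank K)) (w : InfinitePlace K),
      Real.log (w ((u i : 𝓞 K) : K)) ≤ Real.log X := by
    intro i w
    have h1 := hB i w.embedding
    rw [InfinitePlace.norm_embedding_eq] at h1
    refine Real.log_le_log ?_ h1
    rw [InfinitePlace.pos_iff]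
    exact coe_ne_zero (u i)
  have hbnd : ∀ (i : Fin (Units.rank K)) (w : InfinitePlace K),
      |(InfinitePlace.mult w : ℝ) * Real.log (w ((u i : 𝓞 K) : K))| ≤ n * Real.log X := by
    intro i w
    have h2 := sum_mult_mul_log (u i)
    rw [← Finset.add_sum_erase _ _ (Finset.mem_univ w)] at h2
    have h3 : ∑ w' ∈ Finset.univ.erase w, (InfinitePlace.mult w' : ℝ) *
        Real.log (w' ((u i : 𝓞 K) : K)) ≤
        ∑ w' ∈ Finset.univ.erase w, (InfinitePlace.mult w' : ℝ) * Real.log X :=
      Finset.sum_le_sum fun w' _ => mul_le_mul_of_nonneg_left (hup i w') (Nat.cast_nonneg _)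
    rw [← Finset.sum_mul] at h3
    rw [← Finset.add_sum_erase _ _ (Finset.mem_univ w)] at hmn
    have h4 : (0 : ℝ) ≤ ∑ w' ∈ Finset.univ.erase w, (InfinitePlace.mult w' : ℝ) :=
      Finset.sum_nonneg fun _ _ => Nat.cast_nonneg _
    have h5 : (0 : ℝ) ≤ (InfinitePlace.mult w : ℝ) := Nat.cast_nonneg _
    have h6 : (InfinitePlace.mult w : ℝ) * Real.log (w ((u i : 𝓞 K) : K)) ≤
        (InfinitePlace.mult w : ℝ) * Real.log X := mul_le_mul_of_nonneg_left (hup i w) h5
    have h7 : (n : ℝ) * Real.log X = (InfinitePlace.mult w : ℝ) * Real.log X +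
        (∑ w' ∈ Finset.univ.erase w, (InfinitePlace.mult w' : ℝ)) * Real.log X := by
      rw [← add_mul, hmn]
    have h8 := mul_nonneg h4 hlogX
    have h9 := mul_nonneg h5 hlogX
    rw [abs_le]
    constructor
    · linarith
    · linarith
  obtain ⟨w'⟩ : Nonempty (InfinitePlace K) := inferInstance
  have cS : Fintype.card {w : InfinitePlace K // w ≠ w'} = Units.rank K := by
    rw [Fintype.card_subtype_compl, Fintype.card_subtype_eq, Units.rank]
  let f : {w : InfinitePlace K // w ≠ w'} ≃ Fin (Units.rank K) :=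
    Fintype.equivFinOfCardEq cS
  rw [regOfFamily_eq_det u w' f]
  have hdet := Matrix.det_le
    (A := Matrix.of fun i w : {w : InfinitePlace K // w ≠ w'} =>
      (InfinitePlace.mult w.val : ℝ) * Real.log (w.val ((u (f i) : 𝓞 K) : K)))
    (abv := AbsoluteValue.abs) (x := (n : ℝ) * Real.log X) (fun i w => hbnd _ w.1)
  rw [cS, nsmul_eq_mul] at hdet
  refine hdet.trans ?_
  have hrk : Units.rank K ≤ n := by
    have := Pool.Agent.LRN.H74.rank_le K
    omega
  rw [mul_pow, ← mul_assoc]
  refine mul_le_mul_of_nonneg_right ?_ (pow_nonneg hlogX _)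
  refine mul_le_mul ?_ ?_ (pow_nonneg (Nat.cast_nonneg _) _) (Nat.cast_nonneg _)
  · exact_mod_cast Nat.factorial_le hrk
  · calc (n : ℝ) ^ Units.rank K ≤ ((n : ℝ) + 1) ^ Units.rank K :=
          pow_le_pow_left₀ (Nat.cast_nonneg _) (by linarith) _
      _ ≤ ((n : ℝ) + 1) ^ n := pow_le_pow_right₀ (by
          have : (0 : ℝ) ≤ n := Nat.cast_nonneg _
          linarith) hrk

end Pool.Agent.LRN.H5
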