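import Pool.Agent.LRS.Stmts

/-!
# Squad LRN, row SNU: short new units from short units
-/

set_option autoImplicit false

open NumberField Polynomial
open Pool.Agent.LRG (Indep Bdd)
open Pool.Agent.LRN (IsNew MaxNew)
open Pool.Agent.LRS

namespace Pool.Agent.LRN.H5

/-- The products of powers of the `v j`. -/
def prodGrp {G : Type} [CommGroup G] {s : ℕ} (v : Fin s → G) : Subgroup G where
  carrier := {z | ∃ c : Fin s → ℤ, z = ∏ j, v j ^ c j}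
  mul_mem' := by
    rintro _ _ ⟨c, rfl⟩ ⟨d, rfl⟩
    refine ⟨c + d, ?_⟩
    rw [← Finset.prod_mul_distrib]
    refine Finset.prod_congr rfl fun j _ => ?_
    rw [Pi.add_apply, zpow_add]
  one_mem' := ⟨0, by simp⟩
  inv_mem' := by
    rintro _ ⟨c, rfl⟩
    refine ⟨-c, ?_⟩
    rw [← Finset.prod_inv_distrib]
    refine Finset.prod_congr rfl fun j _ => ?_
    rw [Pi.neg_apply, zpow_neg]

/-- The isolator of a subgroup. -/
def isol {G : Type} [CommGroup G] (S : Subgroup G) : Subgroup G where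
  carrier := {z | ∃ N : ℕ, 0 < N ∧ z ^ N ∈ S}
  mul_mem' := by
    rintro a b ⟨N, hN, ha⟩ ⟨M, hM, hb⟩
    refine ⟨N * M, Nat.mul_pos hN hM, ?_⟩
    rw [mul_pow, pow_mul, mul_comm N M, pow_mul]
    exact S.mul_mem (S.pow_mem ha M) (S.pow_mem hb N)
  one_mem' := ⟨1, one_pos, by simp [S.one_mem]⟩
  inv_mem' := by
    rintro a ⟨N, hN, ha⟩
    exact ⟨N, hN, by rw [inv_pow]; exact S.inv_mem ha⟩

theorem isol_of_zpow {G : Type} [CommGroup G] {S : Subgroup G} {z : G} {k : ℤ} (hk : k ≠ 0)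
    (h : z ^ k ∈ isol S) : z ∈ isol S := by
  obtain ⟨N, hN, h1⟩ := h
  refine ⟨k.natAbs * N, Nat.mul_pos (Int.natAbs_pos.2 hk) hN, ?_⟩
  rw [pow_mul]
  rcases Int.natAbs_eq k with h2 | h2
  · rw [h2, zpow_natCast] at h1
    exact h1
  · rw [h2, zpow_neg, zpow_natCast, inv_pow] at h1
    exact S.inv_mem_iff.1 h1

theorem isol_of_pow {G : Type} [CommGroup G] {S : Subgroup G} {z : G} {k : ℕ} (hk : 0 < k)
    (h : z ^ k ∈ isol S) : z ∈ isol S := by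
  refine isol_of_zpow (k := (k : ℤ)) (by exact_mod_cast hk.ne') ?_
  rw [zpow_natCast]
  exact h

variable {K : Type} [Field K] [NumberField K]

theorem unit_conj_ne (u : (𝓞 K)ˣ) (σ : K →+* ℂ) : σ ((u : 𝓞 K) : K) ≠ 0 := by
  rw [Ne, map_eq_zero_iff σ σ.injective]
  intro h
  have h1 : (u : 𝓞 K) = 0 := by exact_mod_cast h
  exact u.ne_zero h1

theorem sum_log_conj (u : (𝓞 K)ˣ) : ∑ τ : K →+* ℂ, Real.log ‖τ ((u : 𝓞 K) : K)‖ = 0 := by
  classical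
  rw [← Real.log_prod fun τ _ => norm_ne_zero_iff.2 (unit_conj_ne u τ)]
  have h1 : ∏ τ : K →+* ℂ, ‖τ ((u : 𝓞 K) : K)‖ = 1 := by
    have h2 := Algebra.norm_eq_prod_embeddings ℚ ℂ ((u : 𝓞 K) : K)
    have h3 : |Algebra.norm ℚ ((u : 𝓞 K) : K)| = 1 := NumberField.Units.norm K u
    have h4 : ∏ τ : K →+* ℂ, τ ((u : 𝓞 K) : K) =
        ∏ τ : K →ₐ[ℚ] ℂ, τ ((u : 𝓞 K) : K) :=
      Fintype.prod_equiv (RingHom.equivRatAlgHom K ℂ) _ _ fun τ => rfl
    rw [← norm_prod, h4, ← h2]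
    have h5 : ‖algebraMap ℚ ℂ (Algebra.norm ℚ ((u : 𝓞 K) : K))‖ =
        ((|Algebra.norm ℚ ((u : 𝓞 K) : K)| : ℚ) : ℝ) := by
      rw [Rat.cast_abs]
      simp
    rw [h5, h3]
    simp
  rw [h1, Real.log_one]

theorem abs_log_conj {u : (𝓞 K)ˣ} {X : ℝ} (hX : 1 ≤ X)
    (h : ∀ τ : K →+* ℂ, ‖τ ((u : 𝓞 K) : K)‖ ≤ X) {n : ℕ}
    (hn : Fintype.card (K →+* ℂ) = n) (τ : K →+* ℂ) :
    |Real.log ‖τ ((u : 𝓞 K) : K)‖| ≤ n * Real.log X := by
  classical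
  have hL : 0 ≤ Real.log X := Real.log_nonneg hX
  have h1 : ∀ ρ : K →+* ℂ, Real.log ‖ρ ((u : 𝓞 K) : K)‖ ≤ Real.log X := fun ρ =>
    Real.log_le_log (norm_pos_iff.2 (unit_conj_ne u ρ)) (h ρ)
  have hn1 : (1 : ℝ) ≤ n := by
    have : 0 < Fintype.card (K →+* ℂ) := Fintype.card_pos_iff.2 ⟨τ⟩
    rw [hn] at this
    exact_mod_cast this
  rw [abs_le]
  constructor
  · have h2 := sum_log_conj u
    rw [← Finset.add_sum_erase _ _ (Finset.mem_univ τ)] at h2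
    have h3 : ∑ ρ ∈ Finset.univ.erase τ, Real.log ‖ρ ((u : 𝓞 K) : K)‖ ≤
        ∑ _ρ ∈ (Finset.univ : Finset (K →+* ℂ)).erase τ, Real.log X :=
      Finset.sum_le_sum fun ρ _ => h1 ρ
    have h4 : ∑ _ρ ∈ (Finset.univ : Finset (K →+* ℂ)).erase τ, Real.log X ≤
        n * Real.log X := by
      rw [Finset.sum_const, nsmul_eq_mul]
      refine mul_le_mul_of_nonneg_right ?_ hL
      have h5 : ((Finset.univ : Finset (K →+* ℂ)).erase τ).card ≤ n := by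
        rw [← hn, ← Finset.card_univ]
        exact Finset.card_le_card (Finset.erase_subset _ _)
      exact_mod_cast h5
    linarith
  · calc Real.log ‖τ ((u : 𝓞 K) : K)‖ ≤ 1 * Real.log X := by rw [one_mul]; exact h1 τ
      _ ≤ n * Real.log X := mul_le_mul_of_nonneg_right hn1 hL

/-- **SNU** -/
theorem snu (hAvg : AvgStmt) (hMpl : MplStmt) (hPsi : PsiStmt) (hFrk : FrkStmt)
    (hExt : ExtStmt) : LRN.SnuStmt := by
  intro n r
  obtain ⟨C₀, hC₀, hM⟩ := hMpl n (2 ^ (n * n))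
  refine ⟨⌈C₀ * (n : ℝ) ^ 2⌉₊, ?_⟩
  intro K _ _ u X hn hr hX hu hb
  classical
  obtain ⟨Φ, P, hsym, hP, hlog, hnew, hnew'⟩ := hAvg K n hn
  have hcard : Fintype.card (K →+* ℂ) = n := by rw [NumberField.Embeddings.card, hn]
  obtain ⟨g, hg0, hPg, hgb⟩ := hM (K →+* ℂ) hcard P hsym
    (fun i j => ⟨(hP i j).1, by push_cast; exact (hP i j).2⟩)
  obtain ⟨Ψ, hΨlog, hΨ⟩ := hPsi K Φ P hlog g
  have hwnew : ∀ y, IsNew (Ψ y) := by
    intro y
    apply hnew'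
    intro σ
    have h1 : ∀ τ : K →+* ℂ, (P σ τ : ℝ) * Real.log ‖τ ((Ψ y : 𝓞 K) : K)‖ =
        ∑ ρ : K →+* ℂ, (P σ τ : ℝ) * ((aeval P g τ ρ : ℤ) : ℝ) *
          Real.log ‖ρ ((y : 𝓞 K) : K)‖ := by
      intro τ
      rw [hΨlog, Finset.mul_sum]
      refine Finset.sum_congr rfl fun ρ _ => ?_
      ring
    rw [Finset.sum_congr rfl fun τ _ => h1 τ, Finset.sum_comm]
    refine Finset.sum_eq_zero fun ρ _ => ?_
    rw [← Finset.sum_mul]
    have h2 : ∑ τ : K →+* ℂ, (P σ τ : ℝ) * ((aeval P g τ ρ : ℤ) : ℝ) = 0 := by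
      have h3 := congrFun (congrFun hPg σ) ρ
      rw [Matrix.mul_apply] at h3
      have h4 : ((∑ τ : K →+* ℂ, P σ τ * aeval P g τ ρ : ℤ) : ℝ) = 0 := by
        rw [h3]
        simp
      rw [← h4]
      push_cast
      rfl
    rw [h2, zero_mul]
  obtain ⟨s, f, hs, hind, hgen⟩ := hExt K r (fun i => Ψ (u i))
  refine ⟨s, fun j => Ψ (u (f j)), hs, ⟨fun j => hwnew _, hind, ?_⟩, ?_⟩
  · intro y hy
    obtain ⟨m₀, hm₀, hy0⟩ := hnew y hy
    obtain ⟨m', hm', hΨy⟩ := hΨ y m₀ hm₀ hy0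
    obtain ⟨a, c, ha, hyc⟩ := hFrk K r u hr hu y
    set S := prodGrp (fun j => Ψ (u (f j))) with hS
    have h1 : ∀ i, Ψ (u i) ∈ isol S := by
      intro i
      obtain ⟨m, d, hm, hd⟩ := hgen i
      exact ⟨m, hm, d, hd⟩
    have h2 : Ψ y ^ a ∈ isol S := by
      rw [← map_pow, hyc, map_prod]
      refine Subgroup.prod_mem _ fun i _ => ?_
      rw [map_zpow]
      exact Subgroup.zpow_mem _ (h1 i) _
    have h3 : Ψ y ∈ isol S := isol_of_pow ha h2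
    have h4 : y ^ (g.coeff 0 * (m' : ℤ)) ∈ isol S := by
      rw [← hΨy]
      exact Subgroup.pow_mem _ h3 _
    have h5 : y ∈ isol S := isol_of_zpow (mul_ne_zero hg0 (by exact_mod_cast hm'.ne')) h4
    obtain ⟨N, hN, e, he⟩ := h5
    exact ⟨N, e, hN, he⟩
  · intro j σ
    have hX0 : 0 < X := lt_of_lt_of_le one_pos hX
    have hL : 0 ≤ Real.log X := Real.log_nonneg hX
    have h1 : Real.log ‖σ ((Ψ (u (f j)) : 𝓞 K) : K)‖ ≤
        ((⌈C₀ * (n : ℝ) ^ 2⌉₊ : ℕ) : ℝ) * Real.log X := by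
      rw [hΨlog]
      calc ∑ τ : K →+* ℂ, ((aeval P g σ τ : ℤ) : ℝ) * Real.log ‖τ ((u (f j) : 𝓞 K) : K)‖
          ≤ ∑ _τ : K →+* ℂ, C₀ * (n * Real.log X) := by
            refine Finset.sum_le_sum fun τ _ => ?_
            refine (le_abs_self _).trans ?_
            rw [abs_mul]
            exact mul_le_mul (hgb σ τ) (abs_log_conj hX (hb (f j)) hcard τ) (abs_nonneg _) hC₀
        _ = C₀ * (n : ℝ) ^ 2 * Real.log X := by
            rw [Finset.sum_const, Finset.card_univ, hcard, nsmul_eq_mul]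
            ring
        _ ≤ _ := mul_le_mul_of_nonneg_right (Nat.le_ceil _) hL
    have h2 : 0 < ‖σ ((Ψ (u (f j)) : 𝓞 K) : K)‖ := norm_pos_iff.2 (unit_conj_ne _ _)
    rw [← Real.log_le_log_iff h2 (pow_pos hX0 _), Real.log_pow]
    exact h1

end Pool.Agent.LRN.H5
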